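import Pool.Agent.H629.CG.Stm

/-!
# MP_e22585_pr: the region near the singularity
-/

set_option autoImplicit false

namespace Pool.Agent.H349.CG.SER

open MeasureTheory ProbabilityTheory Filter Topology Set Pool.Agent.H629.CG
open scoped ENNReal NNReal

lemma gap_nonneg (c : Bool) {s t : ℝ} (h : |s - t| ≤ 1) : 0 ≤ gap c s t := by
  unfold gap
  split_ifs
  · exact le_min (abs_nonneg _) (by linarith)
  · exact abs_nonneg _

lemma gap_le (c : Bool) (s t : ℝ) : gap c s t ≤ |s - t| := by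
  unfold gap
  split_ifs
  · exact min_le_left _ _
  · exact le_rfl

lemma measurable_gap (c : Bool) : Measurable (fun u => gap c u 0) := by
  unfold gap
  split_ifs
  · fun_prop
  · fun_prop

lemma Dl_meas (c : Bool) (δ : ℝ) : MeasurableSet (Dl c δ) :=
  measurableSet_Ico.inter (measurableSet_lt (measurable_gap c) measurable_const)

lemma Dl_sub (c : Bool) {l : ℝ} : Dl c l ⊆ Ico 0 l ∪ Ioo (1 - l) 1 := by
  rintro u ⟨⟨h0, h1⟩, h2⟩
  unfold gap at h2
  split_ifs at h2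
  · rw [sub_zero, abs_of_nonneg h0, min_lt_iff] at h2
    rcases h2 with h | h
    · left; exact ⟨h0, h⟩
    · right; exact ⟨by linarith, h1⟩
  · rw [sub_zero, abs_of_nonneg h0] at h2
    left; exact ⟨h0, h2⟩

lemma lnf_mono {Ω : Type} [MeasurableSpace Ω] {A B : Set ℝ} {P : Measure Ω} {X : ℝ → Ω → ℝ}
    {K : ℝ → ℝ → ℝ} (h : LNF B P X K) (hAB : A ⊆ B) : LNF A P X K where
  meas := h.meas
  gauss := fun n t ht => h.gauss n t (fun i => hAB (ht i))
  mean := fun t ht => h.mean t (hAB ht)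
  cov := fun s hs t ht => h.cov s (hAB hs) t (hAB ht)

lemma measurable_mas {Ω : Type} [MeasurableSpace Ω] (A : Set ℝ) {X : ℝ → Ω → ℝ}
    (h : Measurable (Function.uncurry X)) : Measurable (mas A X) := by
  unfold mas
  have h1 : Measurable (fun p : Ω × ℝ => ENNReal.ofReal (Real.exp (X p.2 p.1))) :=
    (Real.measurable_exp.comp (h.comp measurable_swap)).ennreal_ofReal
  exact h1.lintegral_prod_right'

lemma piece (hSML : S_SML) {μ : ℝ} {r : ℝ → ℝ} {c : Bool} {ε : ℝ} {Ω : Type} [MeasurableSpace Ω]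
    {P : Measure Ω} [IsProbabilityMeasure P] {X : ℝ → Ω → ℝ} (hμ : 0 < μ)
    (hX : LNF (Ico 0 1) P X (kk μ r c ε)) {l C V : ℝ}
    (hlow : ∀ d, 0 ≤ d → d ≤ l → -Real.log (r l) - C ≤ rho r ε d)
    (hup : ∀ d, 0 ≤ d → d ≤ l → rho r ε d ≤ V) {s : ℝ} (hs : 0 < s) (hs1 : s < 1)
    (A : Set ℝ) (hA : MeasurableSet A) (hAv : volume A ≤ ENNReal.ofReal l) (hA1 : A ⊆ Ico 0 1)
    (hAd : ∀ x ∈ A, ∀ y ∈ A, |x - y| ≤ l) :
    mom P A X s ≤ ENNReal.ofReal l ^ s * ex ((s - s ^ 2) / 2 * (μ * (Real.log (r l) + C))) := by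
  have h := hSML Ω P A X (kk μ r c ε) hA (ne_top_of_le_ne_top ENNReal.ofReal_ne_top hAv)
    (lnf_mono hX hA1) (μ * (-Real.log (r l) - C)) (μ * V) ?_ s hs hs1
  · refine h.trans ?_
    have h2 : -((s - s ^ 2) / 2 * (μ * (-Real.log (r l) - C))) =
        (s - s ^ 2) / 2 * (μ * (Real.log (r l) + C)) := by ring
    rw [h2]
    gcongr
  · intro x hx y hy
    have hxy1 : |x - y| ≤ 1 := by
      have h1 := hA1 hx
      have h2 := hA1 hy
      rw [abs_le]
      constructor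
      · linarith [h1.1, h2.2]
      · linarith [h1.2, h2.1]
    have h0 := gap_nonneg c hxy1
    have h1 := (gap_le c x y).trans (hAd x hx y hy)
    unfold kk
    exact ⟨mul_le_mul_of_nonneg_left (hlow _ h0 h1) hμ.le,
      mul_le_mul_of_nonneg_left (hup _ h0 h1) hμ.le⟩

lemma step {Ω : Type} [MeasurableSpace Ω] {P : Measure Ω} {X : ℝ → Ω → ℝ}
    (hX : Measurable (Function.uncurry X)) {l s : ℝ} (hs : 0 < s) (hs1 : s < 1)
    (w : ℝ → ℝ) (D D' R : Set ℝ) (hDR : D ⊆ D' ∪ R) (hR : MeasurableSet R)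
    (hRI : R ⊆ Ico 0 l ∪ Ioo (1 - l) 1) (W : ℝ) (hw : ∀ u ∈ R, w u ≤ W) :
    ∫⁻ ω, (mass D w X ω) ^ s ∂P ≤ ∫⁻ ω, (mass D' w X ω) ^ s ∂P +
      ENNReal.ofReal W ^ s * (mom P (Ico 0 l) X s + mom P (Ioo (1 - l) 1) X s) := by
  have hm1 : Measurable (fun ω => mas (Ico 0 l) X ω ^ s) := (measurable_mas _ hX).pow_const s
  have hm2 : Measurable (fun ω => mas (Ioo (1 - l) 1) X ω ^ s) :=
    (measurable_mas _ hX).pow_const s
  have hpt : ∀ ω, (mass D w X ω) ^ s ≤ (mass D' w X ω) ^ s + ENNReal.ofReal W ^ s *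
      (mas (Ico 0 l) X ω ^ s + mas (Ioo (1 - l) 1) X ω ^ s) := by
    intro ω
    have h1 : mass D w X ω ≤ mass D' w X ω + mass R w X ω := by
      unfold mass
      exact (lintegral_mono_set hDR).trans (lintegral_union_le _ _ _)
    have h2 : mass R w X ω ≤ ENNReal.ofReal W * mas R X ω := by
      unfold mass mas
      rw [← lintegral_const_mul' _ _ ENNReal.ofReal_ne_top]
      refine setLIntegral_mono' hR ?_
      intro u hu
      rw [← ENNReal.ofReal_mul' (Real.exp_pos _).le]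
      exact ENNReal.ofReal_le_ofReal (mul_le_mul_of_nonneg_right (hw u hu) (Real.exp_pos _).le)
    have h3 : mas R X ω ≤ mas (Ico 0 l) X ω + mas (Ioo (1 - l) 1) X ω := by
      unfold mas
      exact (lintegral_mono_set hRI).trans (lintegral_union_le _ _ _)
    calc (mass D w X ω) ^ s ≤ (mass D' w X ω + ENNReal.ofReal W *
          (mas (Ico 0 l) X ω + mas (Ioo (1 - l) 1) X ω)) ^ s := by
            refine ENNReal.rpow_le_rpow (h1.trans ?_) hs.le
            gcongr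
            exact h2.trans (by gcongr)
      _ ≤ (mass D' w X ω) ^ s + (ENNReal.ofReal W *
          (mas (Ico 0 l) X ω + mas (Ioo (1 - l) 1) X ω)) ^ s :=
            ENNReal.rpow_add_le_add_rpow _ _ hs.le hs1.le
      _ ≤ _ := by
            rw [ENNReal.mul_rpow_of_nonneg _ _ hs.le]
            gcongr
            exact ENNReal.rpow_add_le_add_rpow _ _ hs.le hs1.le
  refine (lintegral_mono hpt).trans ?_
  have hm3 : Measurable (fun ω => mas (Ico 0 l) X ω ^ s + mas (Ioo (1 - l) 1) X ω ^ s) :=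
    hm1.add hm2
  have hm4 : Measurable (fun ω => ENNReal.ofReal W ^ s *
      (mas (Ico 0 l) X ω ^ s + mas (Ioo (1 - l) 1) X ω ^ s)) := hm3.const_mul _
  rw [lintegral_add_right _ hm4, lintegral_const_mul _ hm3, lintegral_add_left hm1]
  rfl

lemma halving {τ A A' : ℝ} (hτ : 0 < τ) (hA : 0 ≤ A) (hA' : A' = A / (1 - 2 ^ (-τ)))
    (F : ℝ → ℝ≥0∞) {ε : ℝ} (hε : 0 < ε)
    (h1 : ∀ l, l ≤ 1 / 2 → ε ≤ l → l / 2 ≤ ε → F l ≤ ENNReal.ofReal (A * l ^ τ))
    (h2 : ∀ l, l ≤ 1 / 2 → ε ≤ l → F l ≤ F (l / 2) + ENNReal.ofReal (A * l ^ τ)) :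
    ∀ n : ℕ, ∀ l, l ≤ 1 / 2 → ε ≤ l → l / 2 ^ (n + 1) ≤ ε →
      F l ≤ ENNReal.ofReal (A' * l ^ τ) := by
  have h3 : (2 : ℝ) ^ (-τ) < 1 := Real.rpow_lt_one_of_one_lt_of_neg (by norm_num) (by linarith)
  have h4 : (0 : ℝ) < 2 ^ (-τ) := Real.rpow_pos_of_pos (by norm_num) _
  have h5 : 0 < 1 - (2 : ℝ) ^ (-τ) := by linarith
  have hAA : A ≤ A' := by
    rw [hA', le_div_iff₀ h5]
    nlinarith
  have hA0 : 0 ≤ A' := hA.trans hAA
  have hrec : A' * 2 ^ (-τ) + A = A' := by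
    rw [hA']
    field_simp
    ring
  intro n
  induction n with
  | zero =>
    intro l hl hεl hn
    have hl0 : 0 < l := hε.trans_le hεl
    refine (h1 l hl hεl (by simpa using hn)).trans (ENNReal.ofReal_le_ofReal ?_)
    exact mul_le_mul_of_nonneg_right hAA (Real.rpow_nonneg hl0.le _)
  | succ n ih =>
    intro l hl hεl hn
    have hl0 : 0 < l := hε.trans_le hεl
    rcases le_total (l / 2) ε with h | h
    · refine (h1 l hl hεl h).trans (ENNReal.ofReal_le_ofReal ?_)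
      exact mul_le_mul_of_nonneg_right hAA (Real.rpow_nonneg hl0.le _)
    · have h6 := ih (l / 2) (by linarith) h (by
        refine le_trans (le_of_eq ?_) hn
        rw [pow_succ (2 : ℝ) (n + 1)]
        field_simp)
      refine (h2 l hl hεl).trans ((add_le_add_left h6 _).trans ?_)
      rw [← ENNReal.ofReal_add (mul_nonneg hA0 (Real.rpow_nonneg (by linarith) _))
        (mul_nonneg hA (Real.rpow_nonneg hl0.le _))]
      refine ENNReal.ofReal_le_ofReal (le_of_eq ?_)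
      rw [Real.div_rpow hl0.le (by norm_num), div_eq_mul_inv,
        ← Real.rpow_neg (by norm_num : (0 : ℝ) ≤ 2)]
      calc A' * (l ^ τ * 2 ^ (-τ)) + A * l ^ τ = (A' * 2 ^ (-τ) + A) * l ^ τ := by ring
        _ = A' * l ^ τ := by rw [hrec]

/-- The choice of the exponents. -/
lemma exponents (hR2 : S_R2) {μ : ℝ} {r : ℝ → ℝ} (hμ : 0 < μ) (hr : Prof r) {q : ℝ}
    (hq : -1 / μ - 1 / 2 < q) {C : ℝ}
    (hC1 : ∀ t, 0 < t → t ≤ 1 / 2 → Real.log (r t) ≤ C)
    (hC2 : ∀ ε d, 0 < ε → ε ≤ 1 / 2 → 0 ≤ d → d ≤ 1 / 2 →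
      -C ≤ rho r ε d ∧ rho r ε d ≤ -Real.log (r ε) + C)
    (hC4 : ∀ ε d l, 0 < ε → ε ≤ 1 / 2 → 0 ≤ d → d ≤ 1 / 2 → 0 < l → l ≤ 1 / 2 →
      (l / 2 ≤ ε ∨ l / 2 ≤ d) → rho r ε d ≤ -Real.log (r l) + C) :
    ∃ s τ a₀ : ℝ, 0 < s ∧ s < 1 ∧ 0 < τ ∧ ∀ l, 0 < l → l ≤ 1 / 2 → ∃ x : ℝ,
      (∀ ε d, 0 < ε → ε ≤ 1 / 2 → 0 ≤ d → d ≤ 1 / 2 → (l / 2 ≤ ε ∨ l / 2 ≤ d) →
        -q * (μ * rho r ε d) ≤ x) ∧
      x * s + s * Real.log l + (s - s ^ 2) / 2 * (μ * (Real.log (r l) + C)) ≤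
        a₀ + τ * Real.log l := by
  rcases le_or_gt 0 q with hq0 | hq0
  · refine ⟨1 / 2, 1 / 2, q * (μ * C) / 2 + (1 / 8) * (μ * (C + C)), by norm_num, by norm_num,
      by norm_num, ?_⟩
    intro l hl hl2
    refine ⟨q * (μ * C), ?_, ?_⟩
    · intro ε d hε hε2 hd hd2 _
      have h1 := (hC2 ε d hε hε2 hd hd2).1
      have h2 : 0 ≤ q * μ := mul_nonneg hq0 hμ.le
      nlinarith [mul_le_mul_of_nonneg_left h1 h2]
    · have h1 := hC1 l hl hl2
      have h2 := mul_le_mul_of_nonneg_left h1 hμ.le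
      nlinarith
  · obtain ⟨Q, rfl⟩ : ∃ Q, q = -Q := ⟨-q, by ring⟩
    have hQ : 0 < Q := by linarith
    have hQ2 : Q < 1 / μ + 1 / 2 := by
      have : -1 / μ = -(1 / μ) := by ring
      rw [this] at hq
      linarith
    have hμQ : μ * (Q - 1 / 2) < 1 := by
      have h1 : Q - 1 / 2 < 1 / μ := by linarith
      have h2 := mul_lt_mul_of_pos_left h1 hμ
      rwa [mul_one_div_cancel hμ.ne'] at h2
    -- choice of s
    obtain ⟨s, hs, hs1, hκ⟩ : ∃ s : ℝ, 0 < s ∧ s < 1 ∧ μ * (Q - (1 - s) / 2) < 1 := by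
      refine ⟨min (1 / 2) ((1 - μ * (Q - 1 / 2)) / μ), ?_, ?_, ?_⟩
      · exact lt_min (by norm_num) (div_pos (by linarith) hμ)
      · exact (min_le_left _ _).trans_lt (by norm_num)
      · have h1 : min (1 / 2) ((1 - μ * (Q - 1 / 2)) / μ) ≤ (1 - μ * (Q - 1 / 2)) / μ :=
          min_le_right _ _
        have h2 := mul_le_mul_of_nonneg_left h1 hμ.le
        rw [mul_div_cancel₀ _ hμ.ne'] at h2
        nlinarith
    set κ := Q - (1 - s) / 2 with hκdef
    rcases lt_or_ge κ 0 with hκ0 | hκ0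
    · -- negative κ
      refine ⟨s, s, Q * (μ * C) * s + (s - s ^ 2) / 2 * (μ * C) + s * μ * (-κ) * C, hs, hs1, hs,
        ?_⟩
      intro l hl hl2
      refine ⟨Q * (μ * (-Real.log (r l) + C)), ?_, ?_⟩
      · intro ε d hε hε2 hd hd2 hor
        have h1 := hC4 ε d l hε hε2 hd hd2 hl hl2 hor
        rw [neg_neg]
        exact mul_le_mul_of_nonneg_left (mul_le_mul_of_nonneg_left h1 hμ.le) hQ.le
      · have h1 := hC1 l hl hl2
        have h2 : 0 ≤ s * μ * (-κ) := by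
          have : 0 < -κ := by linarith
          positivity
        have h3 := mul_le_mul_of_nonneg_left h1 h2
        have h4 : Q * (μ * (-Real.log (r l) + C)) * s + s * Real.log l +
            (s - s ^ 2) / 2 * (μ * (Real.log (r l) + C)) =
            Q * (μ * C) * s + (s - s ^ 2) / 2 * (μ * C) + s * μ * (-κ) * Real.log (r l) +
            s * Real.log l := by
          rw [hκdef]
          ring
        rw [h4]
        linarith
    · -- nonnegative κ
      obtain ⟨dl, hdl, hdl2⟩ : ∃ dl : ℝ, 0 < dl ∧ μ * κ * (1 + dl) < 1 := by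
        refine ⟨(1 - μ * κ) / 2, by linarith, ?_⟩
        have h1 : 0 ≤ μ * κ := mul_nonneg hμ.le hκ0
        nlinarith
      obtain ⟨C', hC'0, -, -, hC'⟩ := (hR2 r hr).1 dl hdl
      refine ⟨s, s * (1 - μ * κ * (1 + dl)),
        Q * (μ * C) * s + (s - s ^ 2) / 2 * (μ * C) + s * μ * κ * C', hs, hs1,
        mul_pos hs (by linarith), ?_⟩
      intro l hl hl2
      refine ⟨Q * (μ * (-Real.log (r l) + C)), ?_, ?_⟩
      · intro ε d hε hε2 hd hd2 hor
        have h1 := hC4 ε d l hε hε2 hd hd2 hl hl2 hor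
        rw [neg_neg]
        exact mul_le_mul_of_nonneg_left (mul_le_mul_of_nonneg_left h1 hμ.le) hQ.le
      · have h1 := hC' l hl hl2
        rw [one_div, Real.log_inv] at h1
        have h2 : 0 ≤ s * μ * κ := mul_nonneg (mul_nonneg hs.le hμ.le) hκ0
        have h3 := mul_le_mul_of_nonneg_left h1 h2
        have h4 : Q * (μ * (-Real.log (r l) + C)) * s + s * Real.log l +
            (s - s ^ 2) / 2 * (μ * (Real.log (r l) + C)) =
            Q * (μ * C) * s + (s - s ^ 2) / 2 * (μ * C) + s * μ * κ * (-Real.log (r l)) +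
            s * Real.log l := by
          rw [hκdef]
          ring
        rw [h4]
        linarith

theorem t_SER : S_R2 → S_SML → S_SER := by
  intro hR2 hSML μ r c ε₀ Ω _ P X hμ _ hr hε₀ hε₀2 hF q hq
  obtain ⟨C, hC0, hC1, hC2, hC3, hC4⟩ := (hR2 r hr).2.1
  obtain ⟨s, τ, a₀, hs, hs1, hτ, hx⟩ := exponents hR2 hμ hr hq hC1 hC2 hC4
  refine ⟨s, hs, hs1, ?_⟩
  intro η hη
  set A : ℝ := 2 * Real.exp a₀ with hAdef
  have hA : 0 ≤ A := by positivity
  -- choice of δ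
  obtain ⟨δ, hδ, hδ2, hδη⟩ : ∃ δ : ℝ, 0 < δ ∧ δ ≤ 1 / 2 ∧
      ENNReal.ofReal (A / (1 - 2 ^ (-τ)) * δ ^ τ) ≤ η := by
    have h1 : Tendsto (fun x : ℝ => ENNReal.ofReal (A / (1 - 2 ^ (-τ)) * x ^ τ)) (𝓝[>] 0)
        (𝓝 0) := by
      have h2 : Continuous (fun x : ℝ => ENNReal.ofReal (A / (1 - 2 ^ (-τ)) * x ^ τ)) :=
        ENNReal.continuous_ofReal.comp (continuous_const.mul (Real.continuous_rpow_const hτ.le))
      have h3 := h2.tendsto 0
      simp only [Real.zero_rpow hτ.ne', mul_zero, ENNReal.ofReal_zero] at h3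
      exact h3.mono_left nhdsWithin_le_nhds
    have h2 : ∀ᶠ x : ℝ in 𝓝[>] 0, ENNReal.ofReal (A / (1 - 2 ^ (-τ)) * x ^ τ) ≤ η :=
      (h1.eventually (gt_mem_nhds (pos_iff_ne_zero.2 hη))).mono fun x hx => hx.le
    have h3 : ∀ᶠ x : ℝ in 𝓝[>] 0, x ∈ Ioc (0 : ℝ) (1 / 2) := Ioc_mem_nhdsGT (by norm_num)
    obtain ⟨δ, h4, h5⟩ := (h2.and h3).exists
    exact ⟨δ, h5.1, h5.2, h4⟩
  refine ⟨δ, hδ, hδ2, min δ ε₀, lt_min hδ hε₀, ?_⟩
  intro ε hε
  have hε0 : 0 < ε := hε.1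
  have hεδ : ε ≤ δ := (hε.2.trans_le (min_le_left _ _)).le
  have hεε₀ : ε < ε₀ := hε.2.trans_le (min_le_right _ _)
  have : IsProbabilityMeasure (P ε) := hF.prob ε ⟨hε0, hεε₀⟩
  have hX := hF.lnf ε ⟨hε0, hεε₀⟩
  obtain ⟨V, hV⟩ := (hR2 r hr).2.2 ε hε0
  have hε2 : ε ≤ 1 / 2 := hεδ.trans hδ2
  -- the main bound for one piece
  have hmain : ∀ (l : ℝ), l ≤ 1 / 2 → ε ≤ l → ∀ D' R : Set ℝ, Dl c l ⊆ D' ∪ R →
      MeasurableSet R → R ⊆ Dl c l → (∀ u ∈ R, l / 2 ≤ ε ∨ l / 2 ≤ gap c u 0) →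
      ∫⁻ ω, (mass (Dl c l) (fun u => Real.exp (-q * kk μ r c ε u 0)) (X ε) ω) ^ s ∂(P ε) ≤
      ∫⁻ ω, (mass D' (fun u => Real.exp (-q * kk μ r c ε u 0)) (X ε) ω) ^ s ∂(P ε) +
        ENNReal.ofReal (A * l ^ τ) := by
    intro l hl hεl D' R hDR hR hRD hor
    have hl0 : 0 < l := hε0.trans_le hεl
    obtain ⟨x, hx1, hx2⟩ := hx l hl0 hl
    have hst := step (P := P ε) hX.meas (l := l) hs hs1
      (fun u => Real.exp (-q * kk μ r c ε u 0)) (Dl c l) D' R hDR hR (hRD.trans (Dl_sub c))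
      (Real.exp x) (by
        intro u hu
        have hu1 := hRD hu
        refine Real.exp_le_exp.2 ?_
        unfold kk
        refine hx1 ε _ hε0 hε2 (gap_nonneg c ?_) (hu1.2.le.trans hl) (hor u hu)
        rw [sub_zero, abs_of_nonneg hu1.1.1]
        exact hu1.1.2.le)
    refine hst.trans (add_le_add le_rfl ?_)
    have hp1 := piece hSML hμ hX (l := l) (C := C) (V := V)
      (fun d hd hdl => hC3 ε d l hε0 hεl hd hdl hl)
      (fun d hd hdl => hV ε d le_rfl hε2 hd (hdl.trans hl)) hs hs1 (Ico 0 l) measurableSet_Ico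
      (by rw [Real.volume_Ico, sub_zero]) (fun y hy => ⟨hy.1, by linarith [hy.2]⟩)
      (by
        intro y hy z hz
        rw [abs_le]
        constructor
        · linarith [hy.1, hz.2]
        · linarith [hy.2, hz.1])
    have hp2 := piece hSML hμ hX (l := l) (C := C) (V := V)
      (fun d hd hdl => hC3 ε d l hε0 hεl hd hdl hl)
      (fun d hd hdl => hV ε d le_rfl hε2 hd (hdl.trans hl)) hs hs1 (Ioo (1 - l) 1)
      measurableSet_Ioo
      (by rw [Real.volume_Ioo]; exact ENNReal.ofReal_le_ofReal (by linarith))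
      (fun y hy => ⟨by linarith [hy.1], hy.2⟩)
      (by
        intro y hy z hz
        rw [abs_le]
        constructor
        · linarith [hy.1, hz.2]
        · linarith [hy.2, hz.1])
    have hreal : ENNReal.ofReal (Real.exp x) ^ s * (ENNReal.ofReal l ^ s *
        ex ((s - s ^ 2) / 2 * (μ * (Real.log (r l) + C)))) =
        ENNReal.ofReal (Real.exp (x * s + s * Real.log l +
          (s - s ^ 2) / 2 * (μ * (Real.log (r l) + C)))) := by
      unfold ex
      rw [ENNReal.ofReal_rpow_of_pos (Real.exp_pos _), ENNReal.ofReal_rpow_of_pos hl0,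
        ← ENNReal.ofReal_mul (Real.rpow_nonneg hl0.le _),
        ← ENNReal.ofReal_mul (Real.rpow_nonneg (Real.exp_pos _).le _), ← Real.exp_mul,
        Real.rpow_def_of_pos hl0, ← Real.exp_add, ← Real.exp_add]
      congr 2
      ring
    have hfin : Real.exp (x * s + s * Real.log l +
          (s - s ^ 2) / 2 * (μ * (Real.log (r l) + C))) ≤ Real.exp a₀ * l ^ τ := by
      rw [Real.rpow_def_of_pos hl0, ← Real.exp_add]
      refine Real.exp_le_exp.2 ?_
      linarith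
    calc ENNReal.ofReal (Real.exp x) ^ s *
          (mom (P ε) (Ico 0 l) (X ε) s + mom (P ε) (Ioo (1 - l) 1) (X ε) s)
        ≤ ENNReal.ofReal (Real.exp x) ^ s *
          (ENNReal.ofReal l ^ s * ex ((s - s ^ 2) / 2 * (μ * (Real.log (r l) + C))) +
          ENNReal.ofReal l ^ s * ex ((s - s ^ 2) / 2 * (μ * (Real.log (r l) + C)))) := by
            gcongr
      _ ≤ ENNReal.ofReal (Real.exp a₀ * l ^ τ) + ENNReal.ofReal (Real.exp a₀ * l ^ τ) := by
            rw [mul_add, hreal]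
            exact add_le_add (ENNReal.ofReal_le_ofReal hfin) (ENNReal.ofReal_le_ofReal hfin)
      _ = ENNReal.ofReal (A * l ^ τ) := by
            have h0 : 0 ≤ Real.exp a₀ * l ^ τ := by positivity
            rw [← ENNReal.ofReal_add h0 h0, hAdef]
            congr 1
            ring
  -- induction over the scales
  have hn : ∃ n : ℕ, δ / 2 ^ (n + 1) ≤ ε := by
    obtain ⟨n, hn⟩ := pow_unbounded_of_one_lt (δ / ε) (one_lt_two)
    refine ⟨n, ?_⟩
    rw [div_le_iff₀ (by positivity), pow_succ]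
    rw [div_lt_iff₀ hε0] at hn
    have : 0 < (2 : ℝ) ^ n * ε := by positivity
    nlinarith
  obtain ⟨n, hn⟩ := hn
  refine le_trans ?_ hδη
  refine halving hτ hA rfl (fun l =>
    ∫⁻ ω, (mass (Dl c l) (fun u => Real.exp (-q * kk μ r c ε u 0)) (X ε) ω) ^ s ∂(P ε)) hε0
    ?_ ?_ n δ hδ2 hεδ hn
  · intro l hl hεl hlε
    have h1 := hmain l hl hεl ∅ (Dl c l) (by simp) (Dl_meas c l) le_rfl
      (fun u _ => Or.inl hlε)
    refine h1.trans ?_
    have h2 : ∫⁻ ω, (mass ∅ (fun u => Real.exp (-q * kk μ r c ε u 0)) (X ε) ω) ^ s ∂(P ε) = 0 := by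
      unfold mass
      simp [ENNReal.zero_rpow_of_pos hs]
    rw [h2, zero_add]
  · intro l hl hεl
    refine hmain l hl hεl (Dl c (l / 2)) (Dl c l \ Dl c (l / 2)) ?_
      ((Dl_meas c l).diff (Dl_meas c _)) sdiff_subset ?_
    · intro u hu
      by_cases h : u ∈ Dl c (l / 2)
      · exact Or.inl h
      · exact Or.inr ⟨hu, h⟩
    · intro u hu
      right
      by_contra hcon
      exact hu.2 ⟨hu.1.1, not_le.1 hcon⟩

end Pool.Agent.H349.CG.SER
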